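import Mathlib

/-!
# MP_68eddd: a domain of the natural extension which is not connected

We give a piecewise Möbius map of `[0,2]` with four increasing branches, for which the domain of
the natural extension is the union of two disjoint compact sets, one in the upper and one in the
lower half plane.
-/

set_option autoImplicit false

open MeasureTheory Set

namespace Pool.Agent.Results.MP_68eddd_an.DisconnectedDomain

/-- An increasing piecewise Möbius map: the data of the problem.  The interval is `[l, r]`, the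
subintervals are `[lo i, hi i]`, and `(a i, b i; c i, d i)` is the matrix of the branch `i`. -/
structure Data where
  l : ℝ
  r : ℝ
  ι : Type
  count : Countable ι
  lo : ι → ℝ
  hi : ι → ℝ
  a : ι → ℝ
  b : ι → ℝ
  c : ι → ℝ
  d : ι → ℝ
  l_lt_r : l < r
  lo_le_hi : ∀ i, lo i ≤ hi i
  cover : ⋃ i, Icc (lo i) (hi i) = Icc l r
  overlap : ∀ i j, i ≠ j → volume (Icc (lo i) (hi i) ∩ Icc (lo j) (hi j)) = 0
  det_one : ∀ i, a i * d i - b i * c i = 1
  c_nonneg : ∀ i, 0 ≤ c i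
  denom_ne : ∀ i, ∀ x ∈ Icc (lo i) (hi i), c i * x + d i ≠ 0
  maps : ∀ i, ∀ x ∈ Icc (lo i) (hi i), (a i * x + b i) / (c i * x + d i) ∈ Icc l r
  onto : ⋃ i, (fun x => (a i * x + b i) / (c i * x + d i)) '' Icc (lo i) (hi i) = Icc l r
  expansion : ∃ k < 1, ∀ i, ∀ x ∈ Icc (lo i) (hi i), (c i * x + d i) ^ 2 ≤ k
  bounded : ∃ C, ∀ i, ∀ x ∈ Icc (lo i) (hi i), |c i * (c i * x + d i)| ≤ C

/-- The planar lift of the branch `i`. -/
noncomputable def lift (D : Data) (i : D.ι) (p : ℝ × ℝ) : ℝ × ℝ :=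
  ((D.a i * p.1 + D.b i) / (D.c i * p.1 + D.d i),
    (D.c i * p.1 + D.d i) ^ 2 * p.2 - D.c i * (D.c i * p.1 + D.d i))

/-- The image of a set under the piecewise map given by the lifts. -/
def imageSet (D : Data) (K : Set (ℝ × ℝ)) : Set (ℝ × ℝ) :=
  ⋃ i, lift D i '' (K ∩ (Icc (D.lo i) (D.hi i) ×ˢ univ))

/-- The compact set of the problem: it projects onto the interval and is the closure of its image
under the lifted map. -/
def IsAttractor (D : Data) (K : Set (ℝ × ℝ)) : Prop :=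
  IsCompact K ∧ Prod.fst '' K = Icc D.l D.r ∧ K = closure (imageSet D K)

/-! ### The example -/

/-- unnormalised matrix entries and determinants -/
def A : Fin 4 → ℝ := ![-4, 14, -6, 8]
def B : Fin 4 → ℝ := ![0, -4, 6, -10]
def C : Fin 4 → ℝ := ![2, 4, 4, 2]
def E : Fin 4 → ℝ := ![-3, 1, -9, -1]
def Δ : Fin 4 → ℝ := ![12, 30, 30, 12]
noncomputable def Lo : Fin 4 → ℝ := ![0, 1 / 2, 1, 3 / 2]
noncomputable def Hi : Fin 4 → ℝ := ![1 / 2, 1, 3 / 2, 2]

theorem Δ_pos (i : Fin 4) : 0 < Δ i := by fin_cases i <;> simp [Δ]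

theorem det_eq (i : Fin 4) : A i * E i - B i * C i = Δ i := by
  fin_cases i <;> simp [A, B, C, E, Δ] <;> norm_num

theorem den_ne (i : Fin 4) (x : ℝ) (hx : x ∈ Icc (Lo i) (Hi i)) : C i * x + E i ≠ 0 := by
  fin_cases i <;> simp [Lo, Hi, C, E] at hx ⊢ <;> obtain ⟨h1, h2⟩ := hx <;> intro h <;> linarith

theorem branch0 (x : ℝ) (hx : x ∈ Icc (0 : ℝ) (1 / 2)) :
    (A 0 * x + B 0) / (C 0 * x + E 0) ∈ Icc (0 : ℝ) 1 := by
  obtain ⟨h1, h2⟩ := hx
  simp only [A, B, C, E, Matrix.cons_val]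
  have : (2 * x + -3 : ℝ) < 0 := by linarith
  constructor
  · exact div_nonneg_of_nonpos (by linarith) this.le
  · rw [div_le_one_of_neg this]; linarith

theorem branch1 (x : ℝ) (hx : x ∈ Icc (1 / 2 : ℝ) 1) :
    (A 1 * x + B 1) / (C 1 * x + E 1) ∈ Icc (1 : ℝ) 2 := by
  obtain ⟨h1, h2⟩ := hx
  simp only [A, B, C, E, Matrix.cons_val]
  have : (0 : ℝ) < 4 * x + 1 := by linarith
  constructor
  · rw [le_div_iff₀ this]; linarith
  · rw [div_le_iff₀ this]; linarith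

theorem branch2 (x : ℝ) (hx : x ∈ Icc (1 : ℝ) (3 / 2)) :
    (A 2 * x + B 2) / (C 2 * x + E 2) ∈ Icc (0 : ℝ) 1 := by
  obtain ⟨h1, h2⟩ := hx
  simp only [A, B, C, E, Matrix.cons_val]
  have : (4 * x + -9 : ℝ) < 0 := by linarith
  constructor
  · exact div_nonneg_of_nonpos (by linarith) this.le
  · rw [div_le_one_of_neg this]; linarith

theorem branch3 (x : ℝ) (hx : x ∈ Icc (3 / 2 : ℝ) 2) :
    (A 3 * x + B 3) / (C 3 * x + E 3) ∈ Icc (1 : ℝ) 2 := by
  obtain ⟨h1, h2⟩ := hx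
  simp only [A, B, C, E, Matrix.cons_val]
  have : (0 : ℝ) < 2 * x + -1 := by linarith
  constructor
  · rw [le_div_iff₀ this]; linarith
  · rw [div_le_iff₀ this]; linarith


/-- The unnormalised branch. -/
noncomputable def mob (i : Fin 4) (w : ℝ) : ℝ := (A i * w + B i) / (C i * w + E i)

theorem mob0 (w : ℝ) : mob 0 w = (-4 * w) / (2 * w - 3) := by
  simp only [mob, A, B, C, E, Matrix.cons_val]; ring_nf

theorem mob1 (w : ℝ) : mob 1 w = (14 * w - 4) / (4 * w + 1) := by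
  simp only [mob, A, B, C, E, Matrix.cons_val]; ring_nf

theorem mob2 (w : ℝ) : mob 2 w = (-6 * w + 6) / (4 * w - 9) := by
  simp only [mob, A, B, C, E, Matrix.cons_val]; ring_nf

theorem mob3 (w : ℝ) : mob 3 w = (8 * w - 10) / (2 * w - 1) := by
  simp only [mob, A, B, C, E, Matrix.cons_val]; ring_nf

theorem w0 (w : ℝ) (hw : w ∈ Icc (-9 : ℝ) (-1 / 2)) :
    C 0 * w + E 0 ≠ 0 ∧ mob 0 w ∈ Icc (-9 : ℝ) (-1 / 2) := by
  obtain ⟨h1, h2⟩ := hw
  have h : (2 * w - 3 : ℝ) < 0 := by linarith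
  refine ⟨by simp only [C, E, Matrix.cons_val]; linarith, ?_⟩
  rw [mob0]
  constructor
  · rw [le_div_iff_of_neg h]; linarith
  · rw [div_le_iff_of_neg h]; linarith

theorem w1 (w : ℝ) (hw : w ∈ Icc (-9 : ℝ) (-1 / 2)) :
    C 1 * w + E 1 ≠ 0 ∧ mob 1 w ∈ Icc (5 / 2 : ℝ) 11 := by
  obtain ⟨h1, h2⟩ := hw
  have h : (4 * w + 1 : ℝ) < 0 := by linarith
  refine ⟨by simp only [C, E, Matrix.cons_val]; linarith, ?_⟩
  rw [mob1]
  constructor
  · rw [le_div_iff_of_neg h]; linarith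
  · rw [div_le_iff_of_neg h]; linarith

theorem w1' (w : ℝ) (hw : w ∈ Icc (5 / 2 : ℝ) 11) :
    C 1 * w + E 1 ≠ 0 ∧ mob 1 w ∈ Icc (5 / 2 : ℝ) 11 := by
  obtain ⟨h1, h2⟩ := hw
  have h : (0 : ℝ) < 4 * w + 1 := by linarith
  refine ⟨by simp only [C, E, Matrix.cons_val]; linarith, ?_⟩
  rw [mob1]
  constructor
  · rw [le_div_iff₀ h]; linarith
  · rw [div_le_iff₀ h]; linarith

theorem w2 (w : ℝ) (hw : w ∈ Icc (5 / 2 : ℝ) 11) :
    C 2 * w + E 2 ≠ 0 ∧ mob 2 w ∈ Icc (-9 : ℝ) (-1 / 2) := by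
  obtain ⟨h1, h2⟩ := hw
  have h : (0 : ℝ) < 4 * w - 9 := by linarith
  refine ⟨by simp only [C, E, Matrix.cons_val]; linarith, ?_⟩
  rw [mob2]
  constructor
  · rw [le_div_iff₀ h]; linarith
  · rw [div_le_iff₀ h]; linarith

theorem w2' (w : ℝ) (hw : w ∈ Icc (-9 : ℝ) (-1 / 2)) :
    C 2 * w + E 2 ≠ 0 ∧ mob 2 w ∈ Icc (-9 : ℝ) (-1 / 2) := by
  obtain ⟨h1, h2⟩ := hw
  have h : (4 * w - 9 : ℝ) < 0 := by linarith
  refine ⟨by simp only [C, E, Matrix.cons_val]; linarith, ?_⟩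
  rw [mob2]
  constructor
  · rw [le_div_iff_of_neg h]; linarith
  · rw [div_le_iff_of_neg h]; linarith

theorem w3 (w : ℝ) (hw : w ∈ Icc (5 / 2 : ℝ) 11) :
    C 3 * w + E 3 ≠ 0 ∧ mob 3 w ∈ Icc (5 / 2 : ℝ) 11 := by
  obtain ⟨h1, h2⟩ := hw
  have h : (0 : ℝ) < 2 * w - 1 := by linarith
  refine ⟨by simp only [C, E, Matrix.cons_val]; linarith, ?_⟩
  rw [mob3]
  constructor
  · rw [le_div_iff₀ h]; linarith
  · rw [div_le_iff₀ h]; linarith

/-! Preimages. -/

theorem aux (k D x : ℝ) (hk : k ≠ 0) (hD : D ≠ 0) : (k * x / D) / (k / D) = x := by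
  field_simp

theorem pre0x (x : ℝ) (hx : x ∈ Icc (0 : ℝ) 1) : ∃ u ∈ Icc (0 : ℝ) (1 / 2), mob 0 u = x := by
  obtain ⟨h1, h2⟩ := hx
  have h : (0 : ℝ) < 4 + 2 * x := by linarith
  refine ⟨3 * x / (4 + 2 * x), ⟨by positivity, by rw [div_le_iff₀ h]; linarith⟩, ?_⟩
  have hne : 4 + 2 * x ≠ 0 := by
    intro h0; rw [h0] at h; exact lt_irrefl _ h
  have hu := div_mul_cancel₀ (3 * x) hne
  have e1 : -4 * (3 * x / (4 + 2 * x)) = -12 * x / (4 + 2 * x) := by
    rw [eq_div_iff hne]; linear_combination (-4) * hu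
  have e2 : 2 * (3 * x / (4 + 2 * x)) - 3 = -12 / (4 + 2 * x) := by
    rw [eq_div_iff hne]; linear_combination 2 * hu
  rw [mob0, e1, e2]
  exact aux _ _ _ (by norm_num) hne

theorem pre0w (w : ℝ) (hw : w ∈ Icc (-12 / 7 : ℝ) (-1 / 2)) :
    ∃ u ∈ Icc (-9 : ℝ) (-1 / 2), mob 0 u = w := by
  obtain ⟨h1, h2⟩ := hw
  have h : (0 : ℝ) < 4 + 2 * w := by linarith
  refine ⟨3 * w / (4 + 2 * w), ⟨by rw [le_div_iff₀ h]; linarith,
    by rw [div_le_iff₀ h]; linarith⟩, ?_⟩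
  have hne : 4 + 2 * w ≠ 0 := by
    intro h0; rw [h0] at h; exact lt_irrefl _ h
  have hu := div_mul_cancel₀ (3 * w) hne
  have e1 : -4 * (3 * w / (4 + 2 * w)) = -12 * w / (4 + 2 * w) := by
    rw [eq_div_iff hne]; linear_combination (-4) * hu
  have e2 : 2 * (3 * w / (4 + 2 * w)) - 3 = -12 / (4 + 2 * w) := by
    rw [eq_div_iff hne]; linear_combination 2 * hu
  rw [mob0, e1, e2]
  exact aux _ _ _ (by norm_num) hne

theorem pre2x (x : ℝ) (hx : x ∈ Icc (0 : ℝ) 1) : ∃ u ∈ Icc (1 : ℝ) (3 / 2), mob 2 u = x := by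
  obtain ⟨h1, h2⟩ := hx
  have h : (0 : ℝ) < 4 * x + 6 := by linarith
  refine ⟨(9 * x + 6) / (4 * x + 6), ⟨by rw [le_div_iff₀ h]; linarith,
    by rw [div_le_iff₀ h]; linarith⟩, ?_⟩
  have hne : 4 * x + 6 ≠ 0 := by
    intro h0; rw [h0] at h; exact lt_irrefl _ h
  have hu := div_mul_cancel₀ (9 * x + 6) hne
  have e1 : -6 * ((9 * x + 6) / (4 * x + 6)) + 6 = -30 * x / (4 * x + 6) := by
    rw [eq_div_iff hne]; linear_combination (-6) * hu
  have e2 : 4 * ((9 * x + 6) / (4 * x + 6)) - 9 = -30 / (4 * x + 6) := by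
    rw [eq_div_iff hne]; linear_combination 4 * hu
  rw [mob2, e1, e2]
  exact aux _ _ _ (by norm_num) hne

theorem pre2w (w : ℝ) (hw : w ∈ Icc (-9 : ℝ) (-12 / 7)) :
    ∃ u ∈ Icc (5 / 2 : ℝ) 11, mob 2 u = w := by
  obtain ⟨h1, h2⟩ := hw
  have h : (4 * w + 6 : ℝ) < 0 := by linarith
  refine ⟨(9 * w + 6) / (4 * w + 6), ⟨by rw [le_div_iff_of_neg h]; linarith,
    by rw [div_le_iff_of_neg h]; linarith⟩, ?_⟩
  have hne : 4 * w + 6 ≠ 0 := by
    intro h0; rw [h0] at h; exact lt_irrefl _ h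
  have hu := div_mul_cancel₀ (9 * w + 6) hne
  have e1 : -6 * ((9 * w + 6) / (4 * w + 6)) + 6 = -30 * w / (4 * w + 6) := by
    rw [eq_div_iff hne]; linear_combination (-6) * hu
  have e2 : 4 * ((9 * w + 6) / (4 * w + 6)) - 9 = -30 / (4 * w + 6) := by
    rw [eq_div_iff hne]; linear_combination 4 * hu
  rw [mob2, e1, e2]
  exact aux _ _ _ (by norm_num) hne

theorem pre3x (x : ℝ) (hx : x ∈ Icc (1 : ℝ) 2) : ∃ u ∈ Icc (3 / 2 : ℝ) 2, mob 3 u = x := by
  obtain ⟨h1, h2⟩ := hx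
  have h : (0 : ℝ) < 8 - 2 * x := by linarith
  refine ⟨(10 - x) / (8 - 2 * x), ⟨by rw [le_div_iff₀ h]; linarith,
    by rw [div_le_iff₀ h]; linarith⟩, ?_⟩
  have hne : 8 - 2 * x ≠ 0 := by
    intro h0; rw [h0] at h; exact lt_irrefl _ h
  have hu := div_mul_cancel₀ (10 - x) hne
  have e1 : 8 * ((10 - x) / (8 - 2 * x)) - 10 = 12 * x / (8 - 2 * x) := by
    rw [eq_div_iff hne]; linear_combination (8) * hu
  have e2 : 2 * ((10 - x) / (8 - 2 * x)) - 1 = 12 / (8 - 2 * x) := by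
    rw [eq_div_iff hne]; linear_combination 2 * hu
  rw [mob3, e1, e2]
  exact aux _ _ _ (by norm_num) hne

theorem pre3w (w : ℝ) (hw : w ∈ Icc (5 / 2 : ℝ) (26 / 7)) :
    ∃ u ∈ Icc (5 / 2 : ℝ) 11, mob 3 u = w := by
  obtain ⟨h1, h2⟩ := hw
  have h : (0 : ℝ) < 8 - 2 * w := by linarith
  refine ⟨(10 - w) / (8 - 2 * w), ⟨by rw [le_div_iff₀ h]; linarith,
    by rw [div_le_iff₀ h]; linarith⟩, ?_⟩
  have hne : 8 - 2 * w ≠ 0 := by
    intro h0; rw [h0] at h; exact lt_irrefl _ h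
  have hu := div_mul_cancel₀ (10 - w) hne
  have e1 : 8 * ((10 - w) / (8 - 2 * w)) - 10 = 12 * w / (8 - 2 * w) := by
    rw [eq_div_iff hne]; linear_combination (8) * hu
  have e2 : 2 * ((10 - w) / (8 - 2 * w)) - 1 = 12 / (8 - 2 * w) := by
    rw [eq_div_iff hne]; linear_combination 2 * hu
  rw [mob3, e1, e2]
  exact aux _ _ _ (by norm_num) hne

theorem pre1x (x : ℝ) (hx : x ∈ Icc (1 : ℝ) 2) : ∃ u ∈ Icc (1 / 2 : ℝ) 1, mob 1 u = x := by
  obtain ⟨h1, h2⟩ := hx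
  have h : (0 : ℝ) < 14 - 4 * x := by linarith
  refine ⟨(x + 4) / (14 - 4 * x), ⟨by rw [le_div_iff₀ h]; linarith,
    by rw [div_le_iff₀ h]; linarith⟩, ?_⟩
  have hne : 14 - 4 * x ≠ 0 := by
    intro h0; rw [h0] at h; exact lt_irrefl _ h
  have hu := div_mul_cancel₀ (x + 4) hne
  have e1 : 14 * ((x + 4) / (14 - 4 * x)) - 4 = 30 * x / (14 - 4 * x) := by
    rw [eq_div_iff hne]; linear_combination (14) * hu
  have e2 : 4 * ((x + 4) / (14 - 4 * x)) + 1 = 30 / (14 - 4 * x) := by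
    rw [eq_div_iff hne]; linear_combination 4 * hu
  rw [mob1, e1, e2]
  exact aux _ _ _ (by norm_num) hne

theorem pre1w (w : ℝ) (hw : w ∈ Icc (26 / 7 : ℝ) 11) :
    ∃ u ∈ Icc (-9 : ℝ) (-1 / 2), mob 1 u = w := by
  obtain ⟨h1, h2⟩ := hw
  have h : (14 - 4 * w : ℝ) < 0 := by linarith
  refine ⟨(w + 4) / (14 - 4 * w), ⟨by rw [le_div_iff_of_neg h]; linarith,
    by rw [div_le_iff_of_neg h]; linarith⟩, ?_⟩
  have hne : 14 - 4 * w ≠ 0 := by
    intro h0; rw [h0] at h; exact lt_irrefl _ h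
  have hu := div_mul_cancel₀ (w + 4) hne
  have e1 : 14 * ((w + 4) / (14 - 4 * w)) - 4 = 30 * w / (14 - 4 * w) := by
    rw [eq_div_iff hne]; linear_combination (14) * hu
  have e2 : 4 * ((w + 4) / (14 - 4 * w)) + 1 = 30 / (14 - 4 * w) := by
    rw [eq_div_iff hne]; linear_combination 4 * hu
  rw [mob1, e1, e2]
  exact aux _ _ _ (by norm_num) hne

theorem norm_mob (i : Fin 4) (x : ℝ) :
    (A i / √(Δ i) * x + B i / √(Δ i)) / (C i / √(Δ i) * x + E i / √(Δ i)) = mob i x := by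
  have h := Δ_pos i
  have hne : √(Δ i) ≠ 0 := (Real.sqrt_pos.2 h).ne'
  have h1 : A i / √(Δ i) * x + B i / √(Δ i) = (A i * x + B i) / √(Δ i) := by ring
  have h2 : C i / √(Δ i) * x + E i / √(Δ i) = (C i * x + E i) / √(Δ i) := by ring
  rw [h1, h2, div_div_div_cancel_right₀ hne]
  rfl

theorem norm_sq (i : Fin 4) (x : ℝ) :
    (C i / √(Δ i) * x + E i / √(Δ i)) ^ 2 = (C i * x + E i) ^ 2 / Δ i := by
  have h := Δ_pos i
  have h2 : C i / √(Δ i) * x + E i / √(Δ i) = (C i * x + E i) / √(Δ i) := by ring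
  rw [h2, div_pow, Real.sq_sqrt h.le]

theorem norm_tr (i : Fin 4) (x : ℝ) :
    C i / √(Δ i) * (C i / √(Δ i) * x + E i / √(Δ i)) = C i * (C i * x + E i) / Δ i := by
  have h := Δ_pos i
  have h2 : C i / √(Δ i) * x + E i / √(Δ i) = (C i * x + E i) / √(Δ i) := by ring
  rw [h2, div_mul_div_comm, Real.mul_self_sqrt h.le]

theorem mob_mem (i : Fin 4) (x : ℝ) (hx : x ∈ Icc (Lo i) (Hi i)) : mob i x ∈ Icc (0 : ℝ) 2 := by
  have h1 : ∀ y : ℝ, y ∈ Icc (0 : ℝ) 1 → y ∈ Icc (0 : ℝ) 2 := fun y hy =>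
    ⟨hy.1, by linarith [hy.2]⟩
  have h2 : ∀ y : ℝ, y ∈ Icc (1 : ℝ) 2 → y ∈ Icc (0 : ℝ) 2 := fun y hy =>
    ⟨by linarith [hy.1], hy.2⟩
  fin_cases i
  · exact h1 _ (branch0 x (by simpa [Lo, Hi] using hx))
  · exact h2 _ (branch1 x (by simpa [Lo, Hi] using hx))
  · exact h1 _ (branch2 x (by simpa [Lo, Hi] using hx))
  · exact h2 _ (branch3 x (by simpa [Lo, Hi] using hx))

theorem ex_cover : ⋃ i, Icc (Lo i) (Hi i) = Icc 0 2 := by
  ext x
  simp only [mem_iUnion, mem_Icc]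
  constructor
  · rintro ⟨i, h1, h2⟩
    fin_cases i <;> simp [Lo, Hi] at h1 h2 <;> constructor <;> linarith
  · rintro ⟨h1, h2⟩
    rcases le_total x (1 / 2) with h | h
    · exact ⟨0, by simpa [Lo] using h1, by simpa [Hi] using h⟩
    · rcases le_total x 1 with h' | h'
      · exact ⟨1, by simpa [Lo] using h, by simpa [Hi] using h'⟩
      · rcases le_total x (3 / 2) with h'' | h''
        · exact ⟨2, by simpa [Lo] using h', by simpa [Hi] using h''⟩
        · exact ⟨3, by simpa [Lo] using h'', by simpa [Hi] using h2⟩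

theorem ex_overlap (i j : Fin 4) (hij : i ≠ j) :
    volume (Icc (Lo i) (Hi i) ∩ Icc (Lo j) (Hi j)) = 0 := by
  have hlt : ∀ i j : Fin 4, i < j → volume (Icc (Lo i) (Hi i) ∩ Icc (Lo j) (Hi j)) = 0 := by
    intro i j hij
    have hle : Hi i ≤ Lo j := by
      fin_cases i <;> fin_cases j <;> simp [Lo, Hi] at hij ⊢ <;> norm_num
    refine measure_mono_null (t := {Lo j}) ?_ (measure_singleton _)
    intro x hx
    exact le_antisymm (hx.1.2.trans hle) hx.2.1
  rcases lt_or_gt_of_ne hij with h | h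
  · exact hlt i j h
  · rw [inter_comm]; exact hlt j i h

theorem ex_det (i : Fin 4) :
    A i / √(Δ i) * (E i / √(Δ i)) - B i / √(Δ i) * (C i / √(Δ i)) = 1 := by
  have h := Δ_pos i
  have hs : √(Δ i) * √(Δ i) = Δ i := Real.mul_self_sqrt h.le
  rw [div_mul_div_comm, div_mul_div_comm, hs, ← sub_div, det_eq, div_self h.ne']

theorem ex_denom (i : Fin 4) (x : ℝ) (hx : x ∈ Icc (Lo i) (Hi i)) :
    C i / √(Δ i) * x + E i / √(Δ i) ≠ 0 := by
  have h := Δ_pos i
  have hne : √(Δ i) ≠ 0 := (Real.sqrt_pos.2 h).ne'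
  have : C i / √(Δ i) * x + E i / √(Δ i) = (C i * x + E i) / √(Δ i) := by ring
  rw [this]
  exact div_ne_zero (den_ne i x hx) hne

theorem ex_maps (i : Fin 4) (x : ℝ) (hx : x ∈ Icc (Lo i) (Hi i)) :
    (A i / √(Δ i) * x + B i / √(Δ i)) / (C i / √(Δ i) * x + E i / √(Δ i)) ∈ Icc (0 : ℝ) 2 := by
  rw [norm_mob]; exact mob_mem i x hx

theorem ex_onto : ⋃ i, (fun x => (A i / √(Δ i) * x + B i / √(Δ i)) /
    (C i / √(Δ i) * x + E i / √(Δ i))) '' Icc (Lo i) (Hi i) = Icc 0 2 := by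
  simp only [norm_mob]
  apply Subset.antisymm
  · intro y hy
    simp only [mem_iUnion, mem_image] at hy
    obtain ⟨i, x, hx, rfl⟩ := hy
    exact mob_mem i x hx
  · rintro y ⟨h1, h2⟩
    simp only [mem_iUnion, mem_image]
    rcases le_total y 1 with h | h
    · obtain ⟨u, hu, hy⟩ := pre0x y ⟨h1, h⟩
      exact ⟨0, u, by simpa [Lo, Hi] using hu, hy⟩
    · obtain ⟨u, hu, hy⟩ := pre1x y ⟨h, h2⟩
      exact ⟨1, u, by simpa [Lo, Hi] using hu, hy⟩

theorem ex_bounds (i : Fin 4) (x : ℝ) (hx : x ∈ Icc (Lo i) (Hi i)) :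
    (C i * x + E i) ^ 2 / Δ i ≤ 5 / 6 ∧ |C i * (C i * x + E i) / Δ i| ≤ 1 := by
  have h : ∀ y : ℝ, |y| ≤ 3 → y ^ 2 / 12 ≤ 5 / 6 ∧ |2 * y / 12| ≤ 1 := by
    intro y hy
    obtain ⟨h1, h2⟩ := abs_le.1 hy
    constructor
    · rw [div_le_iff₀ (by norm_num)]; nlinarith
    · rw [abs_le]; constructor <;> linarith
  have h' : ∀ y : ℝ, |y| ≤ 5 → y ^ 2 / 30 ≤ 5 / 6 ∧ |4 * y / 30| ≤ 1 := by
    intro y hy
    obtain ⟨h1, h2⟩ := abs_le.1 hy
    constructor
    · rw [div_le_iff₀ (by norm_num)]; nlinarith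
    · rw [abs_le]; constructor <;> linarith
  obtain ⟨h1, h2⟩ := hx
  fin_cases i
  · simp [Lo, Hi] at h1 h2
    have e : C 0 * x + E 0 = 2 * x - 3 := by simp only [C, E, Matrix.cons_val]; ring
    exact h (C 0 * x + E 0) (by rw [e, abs_le]; constructor <;> linarith)
  · simp [Lo, Hi] at h1 h2
    have e : C 1 * x + E 1 = 4 * x + 1 := by simp only [C, E, Matrix.cons_val]
    exact h' (C 1 * x + E 1) (by rw [e, abs_le]; constructor <;> linarith)
  · simp [Lo, Hi] at h1 h2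
    have e : C 2 * x + E 2 = 4 * x - 9 := by simp only [C, E, Matrix.cons_val]; ring
    exact h' (C 2 * x + E 2) (by rw [e, abs_le]; constructor <;> linarith)
  · simp [Lo, Hi] at h1 h2
    have e : C 3 * x + E 3 = 2 * x - 1 := by simp only [C, E, Matrix.cons_val]; ring
    exact h (C 3 * x + E 3) (by rw [e, abs_le]; constructor <;> linarith)

/-- The data of the example. -/
noncomputable def ex : Data where
  l := 0
  r := 2
  ι := Fin 4
  count := inferInstance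
  lo := Lo
  hi := Hi
  a i := A i / √(Δ i)
  b i := B i / √(Δ i)
  c i := C i / √(Δ i)
  d i := E i / √(Δ i)
  l_lt_r := by norm_num
  lo_le_hi := by intro i; fin_cases i <;> simp [Lo, Hi] <;> norm_num
  cover := ex_cover
  overlap := ex_overlap
  det_one := ex_det
  c_nonneg := by
    intro i
    have h := Real.sqrt_nonneg (Δ i)
    have h2 : 0 ≤ C i := by fin_cases i <;> simp [C]
    positivity
  denom_ne := ex_denom
  maps := ex_maps
  onto := ex_onto
  expansion := ⟨5 / 6, by norm_num, fun i x hx => by rw [norm_sq]; exact (ex_bounds i x hx).1⟩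
  bounded := ⟨1, fun i x hx => by rw [norm_tr]; exact (ex_bounds i x hx).2⟩

/-! ### The attractor of the example -/

/-- coordinates in which the lift acts diagonally -/
noncomputable def chart (p : ℝ × ℝ) : ℝ × ℝ := (p.1, 1 / (p.1 - p.2))

theorem lift_chart (i : Fin 4) (x w : ℝ) (hxw : x - w ≠ 0) (h1 : C i * x + E i ≠ 0)
    (h2 : C i * w + E i ≠ 0) : lift ex i (chart (x, w)) = chart (mob i x, mob i w) := by
  unfold lift chart
  refine Prod.ext ?_ ?_
  · exact norm_mob i x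
  · change (C i / √(Δ i) * x + E i / √(Δ i)) ^ 2 * (1 / (x - w)) -
      C i / √(Δ i) * (C i / √(Δ i) * x + E i / √(Δ i)) = 1 / (mob i x - mob i w)
    rw [norm_sq, norm_tr]
    have hD := (Δ_pos i).ne'
    have e : mob i x - mob i w = Δ i * (x - w) / ((C i * x + E i) * (C i * w + E i)) := by
      unfold mob
      rw [div_sub_div _ _ h1 h2, ← det_eq]
      congr 1
      ring
    rw [e]
    field_simp
    ring

/-- The first and the second component, in the chart. -/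
def P₁ : Set (ℝ × ℝ) := Icc (0 : ℝ) 1 ×ˢ Icc (-9 : ℝ) (-1 / 2)
def P₂ : Set (ℝ × ℝ) := Icc (1 : ℝ) 2 ×ˢ Icc (5 / 2 : ℝ) 11

/-- The attractor. -/
noncomputable def K : Set (ℝ × ℝ) := chart '' P₁ ∪ chart '' P₂

theorem P₁_sub (p : ℝ × ℝ) (hp : p ∈ P₁) : 0 < p.1 - p.2 := by
  have h1 := hp.1.1
  have h2 := hp.2.2
  linarith

theorem P₂_sub (p : ℝ × ℝ) (hp : p ∈ P₂) : p.1 - p.2 < 0 := by
  have h1 := hp.1.2
  have h2 := hp.2.1
  linarith

theorem isCompact_K : IsCompact K := by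
  have hc : ∀ P : Set (ℝ × ℝ), (∀ p ∈ P, p.1 - p.2 ≠ 0) → ContinuousOn chart P := by
    intro P hP
    unfold chart
    refine continuousOn_fst.prodMk (ContinuousOn.div continuousOn_const
      (continuousOn_fst.sub continuousOn_snd) hP)
  refine IsCompact.union ?_ ?_
  · exact (isCompact_Icc.prod isCompact_Icc).image_of_continuousOn
      (hc P₁ fun p hp => (P₁_sub p hp).ne')
  · exact (isCompact_Icc.prod isCompact_Icc).image_of_continuousOn
      (hc P₂ fun p hp => (P₂_sub p hp).ne)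

theorem imageSet_K : imageSet ex K = K := by
  apply Subset.antisymm
  · intro q hq
    unfold imageSet at hq
    rw [mem_iUnion] at hq
    obtain ⟨i, p, ⟨hpK, hpI, -⟩, rfl⟩ := hq
    change Fin 4 at i
    rcases hpK with ⟨⟨x, w⟩, hP, rfl⟩ | ⟨⟨x, w⟩, hP, rfl⟩
    · have hxw := (P₁_sub _ hP).ne'
      have hx : x ∈ Icc (Lo i) (Hi i) := hpI
      have hden := den_ne i x hx
      obtain ⟨hx1, hw1⟩ := hP
      simp only at hx1 hw1
      fin_cases i
      · obtain ⟨h1, h2⟩ := w0 w hw1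
        left
        refine ⟨(mob 0 x, mob 0 w), ⟨branch0 x (by simpa [Lo, Hi] using hx), h2⟩, ?_⟩
        exact (lift_chart 0 x w hxw hden h1).symm
      · obtain ⟨h1, h2⟩ := w1 w hw1
        right
        refine ⟨(mob 1 x, mob 1 w), ⟨branch1 x (by simpa [Lo, Hi] using hx), h2⟩, ?_⟩
        exact (lift_chart 1 x w hxw hden h1).symm
      · obtain ⟨h1, h2⟩ := w2' w hw1
        left
        refine ⟨(mob 2 x, mob 2 w), ⟨branch2 x (by simpa [Lo, Hi] using hx), h2⟩, ?_⟩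
        exact (lift_chart 2 x w hxw hden h1).symm
      · exfalso
        simp [Lo, Hi] at hx
        linarith [hx.1, hx1.2]
    · have hxw := (P₂_sub _ hP).ne
      have hx : x ∈ Icc (Lo i) (Hi i) := hpI
      have hden := den_ne i x hx
      obtain ⟨hx1, hw1⟩ := hP
      simp only at hx1 hw1
      fin_cases i
      · exfalso
        simp [Lo, Hi] at hx
        linarith [hx.2, hx1.1]
      · obtain ⟨h1, h2⟩ := w1' w hw1
        right
        refine ⟨(mob 1 x, mob 1 w), ⟨branch1 x (by simpa [Lo, Hi] using hx), h2⟩, ?_⟩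
        exact (lift_chart 1 x w hxw hden h1).symm
      · obtain ⟨h1, h2⟩ := w2 w hw1
        left
        refine ⟨(mob 2 x, mob 2 w), ⟨branch2 x (by simpa [Lo, Hi] using hx), h2⟩, ?_⟩
        exact (lift_chart 2 x w hxw hden h1).symm
      · obtain ⟨h1, h2⟩ := w3 w hw1
        right
        refine ⟨(mob 3 x, mob 3 w), ⟨branch3 x (by simpa [Lo, Hi] using hx), h2⟩, ?_⟩
        exact (lift_chart 3 x w hxw hden h1).symm
  · rintro q (⟨⟨x, w⟩, ⟨hx, hw⟩, rfl⟩ | ⟨⟨x, w⟩, ⟨hx, hw⟩, rfl⟩)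
    · simp only at hx hw
      unfold imageSet
      rw [mem_iUnion]
      rcases le_total (-12 / 7) w with h | h
      · obtain ⟨u, hu, rfl⟩ := pre0x x hx
        obtain ⟨v, hv, rfl⟩ := pre0w w ⟨h, hw.2⟩
        have hP : (u, v) ∈ P₁ := ⟨⟨hu.1, by linarith [hu.2]⟩, hv⟩
        have huI : u ∈ Icc (Lo 0) (Hi 0) := by simpa [Lo, Hi] using hu
        refine ⟨(0 : Fin 4), chart (u, v), ⟨Or.inl ⟨_, hP, rfl⟩, huI, mem_univ _⟩, ?_⟩
        exact lift_chart 0 u v (P₁_sub _ hP).ne' (den_ne 0 u huI) (w0 v hv).1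
      · obtain ⟨u, hu, rfl⟩ := pre2x x hx
        obtain ⟨v, hv, rfl⟩ := pre2w w ⟨hw.1, h⟩
        have hP : (u, v) ∈ P₂ := ⟨⟨hu.1, by linarith [hu.2]⟩, hv⟩
        have huI : u ∈ Icc (Lo 2) (Hi 2) := by simpa [Lo, Hi] using hu
        refine ⟨(2 : Fin 4), chart (u, v), ⟨Or.inr ⟨_, hP, rfl⟩, huI, mem_univ _⟩, ?_⟩
        exact lift_chart 2 u v (P₂_sub _ hP).ne (den_ne 2 u huI) (w2 v hv).1
    · simp only at hx hw
      unfold imageSet
      rw [mem_iUnion]
      rcases le_total w (26 / 7) with h | h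
      · obtain ⟨u, hu, rfl⟩ := pre3x x hx
        obtain ⟨v, hv, rfl⟩ := pre3w w ⟨hw.1, h⟩
        have hP : (u, v) ∈ P₂ := ⟨⟨by linarith [hu.1], hu.2⟩, hv⟩
        have huI : u ∈ Icc (Lo 3) (Hi 3) := by simpa [Lo, Hi] using hu
        refine ⟨(3 : Fin 4), chart (u, v), ⟨Or.inr ⟨_, hP, rfl⟩, huI, mem_univ _⟩, ?_⟩
        exact lift_chart 3 u v (P₂_sub _ hP).ne (den_ne 3 u huI) (w3 v hv).1
      · obtain ⟨u, hu, rfl⟩ := pre1x x hx
        obtain ⟨v, hv, rfl⟩ := pre1w w ⟨h, hw.2⟩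
        have hP : (u, v) ∈ P₁ := ⟨⟨by linarith [hu.1], hu.2⟩, hv⟩
        have huI : u ∈ Icc (Lo 1) (Hi 1) := by simpa [Lo, Hi] using hu
        refine ⟨(1 : Fin 4), chart (u, v), ⟨Or.inl ⟨_, hP, rfl⟩, huI, mem_univ _⟩, ?_⟩
        exact lift_chart 1 u v (P₁_sub _ hP).ne' (den_ne 1 u huI) (w1 v hv).1

theorem proj_K : Prod.fst '' K = Icc (0 : ℝ) 2 := by
  apply Subset.antisymm
  · rintro _ ⟨_, (⟨p, hp, rfl⟩ | ⟨p, hp, rfl⟩), rfl⟩
    · exact ⟨hp.1.1, by simp only [chart]; linarith [hp.1.2]⟩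
    · exact ⟨by simp only [chart]; linarith [hp.1.1], hp.1.2⟩
  · rintro x ⟨h1, h2⟩
    rcases le_total x 1 with h | h
    · exact ⟨chart (x, -1), Or.inl ⟨_, ⟨⟨h1, h⟩, ⟨by norm_num, by norm_num⟩⟩, rfl⟩, rfl⟩
    · exact ⟨chart (x, 3), Or.inr ⟨_, ⟨⟨h, h2⟩, ⟨by norm_num, by norm_num⟩⟩, rfl⟩, rfl⟩

theorem isAttractor_K : IsAttractor ex K :=
  ⟨isCompact_K, proj_K, by rw [imageSet_K, isCompact_K.isClosed.closure_eq]⟩

theorem volume_K : 0 < volume K := by
  have hsub : Icc (0 : ℝ) 1 ×ˢ Icc (1 / 9 : ℝ) (2 / 3) ⊆ K := by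
    rintro ⟨x, y⟩ ⟨⟨h1, h2⟩, ⟨h3, h4⟩⟩
    simp only at h1 h2 h3 h4
    have hy : 0 < y := by linarith
    left
    refine ⟨(x, x - 1 / y), ⟨⟨h1, h2⟩, ?_, ?_⟩, ?_⟩
    · have : 1 / y ≤ 9 := by rw [div_le_iff₀ hy]; linarith
      simp only
      linarith
    · have : 3 / 2 ≤ 1 / y := by rw [le_div_iff₀ hy]; linarith
      simp only
      linarith
    · simp only [chart, sub_sub_cancel, one_div, inv_inv]
  refine lt_of_lt_of_le ?_ (measure_mono hsub)
  rw [Measure.volume_eq_prod, Measure.prod_prod, Real.volume_Icc, Real.volume_Icc]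
  exact ENNReal.mul_pos (ENNReal.ofReal_pos.2 (by norm_num)).ne'
    (ENNReal.ofReal_pos.2 (by norm_num)).ne'

theorem not_preconnected : ¬ IsPreconnected K := by
  intro h
  have h1 := h {p | 0 < p.2} {p | p.2 < 0} (isOpen_lt continuous_const continuous_snd)
    (isOpen_lt continuous_snd continuous_const) ?_ ?_ ?_
  · obtain ⟨p, -, hp1, hp2⟩ := h1
    have a1 : 0 < p.2 := hp1
    have a2 : p.2 < 0 := hp2
    linarith
  · rintro _ (⟨p, hp, rfl⟩ | ⟨p, hp, rfl⟩)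
    · left
      have := P₁_sub p hp
      simp only [chart, mem_ofPred_eq]
      positivity
    · right
      have := P₂_sub p hp
      simp only [chart, mem_ofPred_eq]
      exact one_div_neg.2 this
  · refine ⟨chart (0, -1), Or.inl ⟨_, ⟨⟨le_rfl, by norm_num⟩, ⟨by norm_num, by norm_num⟩⟩, rfl⟩, ?_⟩
    simp [chart]
  · refine ⟨chart (2, 3), Or.inr ⟨_, ⟨⟨by norm_num, le_rfl⟩, ⟨by norm_num, by norm_num⟩⟩, rfl⟩, ?_⟩
    simp only [chart, mem_ofPred_eq]
    norm_num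

/-! ### Uniqueness -/

theorem subset_of_attractor (D : Data) [Finite D.ι] {K K' : Set (ℝ × ℝ)} (hK : IsAttractor D K)
    (hK' : IsAttractor D K') : K ⊆ K' := by
  obtain ⟨k, hk1, hk⟩ := D.expansion
  have hcl : IsClosed (imageSet D K) := by
    unfold imageSet
    refine isClosed_iUnion_of_finite fun i => ?_
    refine (IsCompact.image_of_continuousOn
      (hK.1.inter_right (isClosed_Icc.prod isClosed_univ)) ?_).isClosed
    unfold lift
    have hcont : ContinuousOn (fun p : ℝ × ℝ => D.c i * p.1 + D.d i)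
        (K ∩ (Icc (D.lo i) (D.hi i) ×ˢ univ)) := by fun_prop
    refine ContinuousOn.prodMk ?_ ?_
    · refine ContinuousOn.div (by fun_prop) hcont ?_
      rintro p ⟨-, hp, -⟩
      exact D.denom_ne i _ hp
    · fun_prop
  have hKi : K = imageSet D K := by
    conv_lhs => rw [hK.2.2]
    exact hcl.closure_eq
  -- bound of the differences
  obtain ⟨R, hR⟩ := hK.1.isBounded.exists_norm_le
  obtain ⟨R', hR'⟩ := hK'.1.isBounded.exists_norm_le
  have key : ∀ n : ℕ, ∀ p ∈ K, ∃ q ∈ K', q.1 = p.1 ∧ |p.2 - q.2| ≤ k ^ n * (R + R') := by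
    intro n
    induction n with
    | zero =>
      intro p hp
      have h1 : p.1 ∈ Icc D.l D.r := by rw [← hK.2.1]; exact ⟨p, hp, rfl⟩
      rw [← hK'.2.1] at h1
      obtain ⟨q, hq, hq1⟩ := h1
      refine ⟨q, hq, hq1, ?_⟩
      have h2 : |p.2| ≤ R := (norm_snd_le p).trans (hR p hp)
      have h3 : |q.2| ≤ R' := (norm_snd_le q).trans (hR' q hq)
      have h4 := abs_sub p.2 q.2
      simpa using h4.trans (add_le_add h2 h3)
    | succ n ih =>
      intro p hp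
      rw [hKi] at hp
      unfold imageSet at hp
      rw [mem_iUnion] at hp
      obtain ⟨i, p1, ⟨hp1K, hp1I, -⟩, rfl⟩ := hp
      obtain ⟨q1, hq1, hq1x, hq1y⟩ := ih p1 hp1K
      have hsq := hk i p1.1 hp1I
      have hk0 : 0 ≤ k := (sq_nonneg _).trans hsq
      refine ⟨lift D i q1, ?_, ?_, ?_⟩
      · rw [hK'.2.2]
        apply subset_closure
        unfold imageSet
        rw [mem_iUnion]
        exact ⟨i, q1, ⟨hq1, by rw [hq1x]; exact hp1I, mem_univ _⟩, rfl⟩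
      · simp only [lift, hq1x]
      · simp only [lift, hq1x]
        have e : (D.c i * p1.1 + D.d i) ^ 2 * p1.2 - D.c i * (D.c i * p1.1 + D.d i) -
            ((D.c i * p1.1 + D.d i) ^ 2 * q1.2 - D.c i * (D.c i * p1.1 + D.d i)) =
            (D.c i * p1.1 + D.d i) ^ 2 * (p1.2 - q1.2) := by ring
        rw [e, abs_mul, abs_of_nonneg (sq_nonneg _)]
        calc (D.c i * p1.1 + D.d i) ^ 2 * |p1.2 - q1.2| ≤ k * (k ^ n * (R + R')) := by gcongr
          _ = k ^ (n + 1) * (R + R') := by ring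
  intro p hp
  have hk0 : 0 ≤ k := by
    have hp' := hp
    rw [hKi] at hp'
    unfold imageSet at hp'
    rw [mem_iUnion] at hp'
    obtain ⟨i, p1, ⟨-, hp1I, -⟩, -⟩ := hp'
    exact (sq_nonneg _).trans (hk i p1.1 hp1I)
  choose q hq hqx hqy using fun n => key n p hp
  have hlim : Filter.Tendsto q Filter.atTop (nhds p) := by
    rw [tendsto_iff_norm_sub_tendsto_zero]
    have h5 : Filter.Tendsto (fun n => k ^ n * (R + R')) Filter.atTop (nhds 0) := by
      have := (tendsto_pow_atTop_nhds_zero_of_lt_one hk0 hk1).mul_const (R + R')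
      simpa using this
    refine squeeze_zero (fun n => norm_nonneg _) (fun n => ?_) h5
    rw [Prod.norm_def]
    simp only [Prod.fst_sub, Prod.snd_sub, hqx, sub_self, norm_zero]
    have h6 := hqy n
    rw [abs_sub_comm] at h6
    exact max_le ((abs_nonneg _).trans h6) h6
  exact hK'.1.isClosed.mem_of_tendsto hlim (Filter.Eventually.of_forall hq)

/-- **The domain of the natural extension need not be connected.**
There is an increasing piecewise Möbius map as in the problem, with its (unique) compact set `K`,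
such that `K` has positive measure, `K` minus its image is a null set, and `K` is not
connected. -/
theorem result : ∃ (D : Data) (K : Set (ℝ × ℝ)), IsAttractor D K ∧
    (∀ K', IsAttractor D K' → K' = K) ∧ 0 < volume K ∧ volume (K \ imageSet D K) = 0 ∧
      ¬ IsConnected K := by
  have : Finite ex.ι := inferInstanceAs (Finite (Fin 4))
  refine ⟨ex, K, isAttractor_K, fun K' hK' => ?_, volume_K, ?_, ?_⟩
  · exact Subset.antisymm (subset_of_attractor ex hK' isAttractor_K)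
      (subset_of_attractor ex isAttractor_K hK')
  · rw [imageSet_K, sdiff_self]; exact measure_empty
  · exact fun h => not_preconnected h.isPreconnected

end Pool.Agent.Results.MP_68eddd_an.DisconnectedDomain
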